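import Mathlib
import Pool.Agent.X58.IV.ExactE

set_option autoImplicit false

/-!
# Square roots of isolated patterns of almost primes

Let `H` be an admissible finite set, `L` a number and `λ < 1`.  There are `C`, `t` such that for all large real `y`
and all `z` with `y ^ (-λ) ≤ z - y ≤ 1` the number of the `q` with `y < √q ≤ z` for which all `q + h`, `h ∈ H`, are
products of at most `t` primes, all of them `> (⌊y⌋ ^ 3) ^ (1 / t)`, while all other `q + j`, `|j| ≤ L`, have a prime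
factor `≤ C`, has the order of magnitude `y (z - y) / (log y) ^ |H|`.  In particular the square roots of
consecutive such numbers differ by at most `y ^ (-λ)`.  For any colouring with `r` colours nearly all of these `q`
are covered by disjoint monochromatic arithmetic progressions of `s` terms with differences `≤ (log y) ^ c`.
-/

namespace Pool.Agent.Results.MP_3998cf_nt.PatternsAtEveryScale

open Finset Filter Topology Pool.Agent.X58.IV

/-- no prime divides `∏ (q + h)`, `h ∈ H`, for all `q` -/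
def Admissible (H : Finset ℕ) : Prop := ∀ p : ℕ, p.Prime → ∃ q : ℕ, ¬ p ∣ ∏ h ∈ H, (q + h)

/-- `v > 1` is a product of at most `t` primes, all of them `> w` -/
def AlmostPrime (t : ℕ) (w : ℝ) (v : ℕ) : Prop :=
  1 < v ∧ v.primeFactorsList.length ≤ t ∧ ∀ p : ℕ, p.Prime → p ∣ v → w < p

open Classical in
/-- the `q` with `y < √q ≤ z` for which all `q + h`, `h ∈ H`, are products of at most `t` primes, all of them
`> (⌊y⌋ ^ 3) ^ (1 / t)`, and all other `q + j`, `|j| ≤ L`, are divisible by a prime `≤ C` -/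
noncomputable def Roots (H : Finset ℕ) (L C t : ℕ) (y z : ℝ) : Finset ℕ :=
  (range (⌊z ^ 2⌋₊ + 1)).filter (fun q => (y < √(q : ℝ) ∧ √(q : ℝ) ≤ z) ∧
    (∀ h ∈ H, AlmostPrime t (((⌊y⌋₊ ^ 3 : ℕ) : ℝ) ^ (1 / (t : ℝ))) (q + h)) ∧
    ∀ j : ℤ, -(L : ℤ) ≤ j → j ≤ L → (∀ h ∈ H, j ≠ (h : ℤ)) → ∃ p : ℕ, p.Prime ∧ p ≤ C ∧ (p : ℤ) ∣ (q : ℤ) + j)

/-- the terms `a, a + b, ..., a + (s - 1) b` of the progression `v = (a, b)` -/
def Progression (s : ℕ) (v : ℕ × ℕ) : Finset ℕ := (range s).image (fun i => v.1 + i * v.2)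

lemma roots_eq (H : Finset ℕ) (L C t : ℕ) {y z : ℝ} (hy : 0 ≤ y) (hz : 0 ≤ z) :
    Isolated H L C t (⌊y⌋₊ ^ 3) ⌊y ^ 2⌋₊ ⌊z ^ 2⌋₊ = Roots H L C t y z := by
  classical
  ext q
  unfold Isolated Roots
  rw [mem_filter, mem_filter, mem_Ioc, mem_range, Nat.lt_succ_iff, Nat.floor_lt (by positivity),
    Nat.le_floor_iff (by positivity), Real.lt_sqrt hy, Real.sqrt_le_left hz]
  constructor
  · rintro ⟨⟨h1, h2⟩, h3, h4⟩
    exact ⟨h2, ⟨h1, h2⟩, h3, h4⟩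
  · rintro ⟨_, ⟨h1, h2⟩, h3, h4⟩
    exact ⟨⟨h1, h2⟩, h3, h4⟩

theorem result (H : Finset ℕ) (hH : H.Nonempty) (hadm : Admissible H) (L : ℕ) (lam : ℝ) (hlam : lam < 1) :
    ∃ C t : ℕ, 1 ≤ t ∧ ∃ κ K : ℝ, 0 < κ ∧ 0 < K ∧ ∀ (s r : ℕ) (δ : ℝ), 1 ≤ s → 0 < δ → ∃ (c : ℕ) (y₀ : ℝ),
      ∀ y z : ℝ, y₀ ≤ y → y ^ (-lam) ≤ z - y → z - y ≤ 1 →
        κ * (y * (z - y)) / Real.log y ^ H.card ≤ ((Roots H L C t y z).card : ℝ) ∧
        ((Roots H L C t y z).card : ℝ) ≤ K * (y * (z - y)) / Real.log y ^ H.card ∧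
        ∀ χ : ℕ → Fin r, ∃ P : Finset (ℕ × ℕ),
          (∀ v ∈ P, 1 ≤ v.2 ∧ (v.2 : ℝ) ≤ Real.log y ^ c ∧
            ∀ l < s, v.1 + l * v.2 ∈ Roots H L C t y z ∧ χ (v.1 + l * v.2) = χ v.1) ∧
          (P : Set (ℕ × ℕ)).PairwiseDisjoint (Progression s) ∧
          (((Roots H L C t y z \ P.biUnion (Progression s)).card : ℕ) : ℝ) ≤
            δ * (y * (z - y)) / Real.log y ^ H.card := by
  classical
  obtain ⟨C, t, ht, κ, K, hκ, hK, h⟩ := isolatedE H hH hadm L 3 (by norm_num) (1 - lam) (by linarith)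
  set k := H.card with hk
  refine ⟨C, t, ht, κ, K * (4 * 2 ^ k), hκ, by positivity, fun s r δ hs hδ => ?_⟩
  obtain ⟨c, N₀, h2⟩ := h s r (δ / (4 * 2 ^ k)) hs (by positivity)
  refine ⟨c, max (N₀ + 1) 16, fun y z hy hyz hz1 => ?_⟩
  have hy16 : (16 : ℝ) ≤ y := (le_max_right _ _).trans hy
  have hyN : (N₀ : ℝ) + 1 ≤ y := (le_max_left _ _).trans hy
  have hy0 : 0 < y := by linarith
  set N := ⌊y⌋₊ with hN
  have hNy : (N : ℝ) ≤ y := Nat.floor_le hy0.le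
  have hyN1 : y < N + 1 := Nat.lt_floor_add_one y
  have hN0 : N₀ ≤ N := by
    have : (N₀ : ℝ) < N + 1 := by linarith
    have : N₀ < N + 1 := by exact_mod_cast this
    omega
  have hN15 : (15 : ℝ) < N := by linarith
  -- lengths
  have hw : y ^ (1 - lam) ≤ y * (z - y) := by
    calc y ^ (1 - lam) = y * y ^ (-lam) := by
          rw [show (1 : ℝ) - lam = 1 + -lam by ring, Real.rpow_add hy0, Real.rpow_one]
      _ ≤ y * (z - y) := by gcongr
  have hw1 : 1 ≤ y * (z - y) := le_trans (Real.one_le_rpow (by linarith) (by linarith)) hw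
  have hzy : 0 < z - y := by
    by_contra hcon
    push Not at hcon
    nlinarith
  have hz0 : 0 < z := by linarith
  have hA : (⌊y ^ 2⌋₊ : ℝ) ≤ y ^ 2 := Nat.floor_le (by positivity)
  have hA' : y ^ 2 < (⌊y ^ 2⌋₊ : ℝ) + 1 := Nat.lt_floor_add_one _
  have hB : (⌊z ^ 2⌋₊ : ℝ) ≤ z ^ 2 := Nat.floor_le (by positivity)
  have hB' : z ^ 2 < (⌊z ^ 2⌋₊ : ℝ) + 1 := Nat.lt_floor_add_one _
  have hlow : y * (z - y) ≤ (⌊z ^ 2⌋₊ : ℝ) - ⌊y ^ 2⌋₊ := by nlinarith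
  have hup : (⌊z ^ 2⌋₊ : ℝ) - ⌊y ^ 2⌋₊ ≤ 4 * (y * (z - y)) := by nlinarith
  have hBN : ⌊z ^ 2⌋₊ ≤ N ^ 3 := by
    have h5 : (⌊z ^ 2⌋₊ : ℝ) ≤ (N : ℝ) ^ 3 := by
      have h6 : z ^ 2 ≤ (N + 2 : ℝ) ^ 2 := by
        have : z ≤ N + 2 := by linarith
        exact pow_le_pow_left₀ hz0.le this 2
      have h7 : (N + 2 : ℝ) ^ 2 ≤ (N : ℝ) ^ 3 := by
        nlinarith [mul_pos (show (0 : ℝ) < N by linarith) (show (0 : ℝ) < N by linarith)]
      linarith
    exact_mod_cast h5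
  have h3 := h2 N hN0 ⌊y ^ 2⌋₊ ⌊z ^ 2⌋₊ hBN (by
    refine le_trans ?_ (hw.trans hlow)
    exact Real.rpow_le_rpow (Nat.cast_nonneg _) hNy (by linarith))
  rw [roots_eq H L C t hy0.le hz0.le] at h3
  -- logarithms
  have hlN : 0 < Real.log N := Real.log_pos (by linarith)
  have hly : 0 < Real.log y := Real.log_pos (by linarith)
  have hl1 : Real.log N ≤ Real.log y := Real.log_le_log (by linarith) hNy
  have hl2 : Real.log y ≤ 2 * Real.log N := by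
    have e : 2 * Real.log N = Real.log ((N : ℝ) ^ 2) := by rw [Real.log_pow]; norm_num
    rw [e]
    apply Real.log_le_log hy0
    nlinarith
  have hkk : Real.log y ^ k ≤ 2 ^ k * Real.log N ^ k := by
    rw [← mul_pow]
    exact pow_le_pow_left₀ hly.le hl2 k
  have conv : ∀ x : ℝ, 0 ≤ x → x * ((⌊z ^ 2⌋₊ : ℝ) - ⌊y ^ 2⌋₊) / Real.log N ^ k ≤
      x * (4 * 2 ^ k) * (y * (z - y)) / Real.log y ^ k := by
    intro x hx
    rw [div_le_div_iff₀ (by positivity) (by positivity)]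
    calc x * ((⌊z ^ 2⌋₊ : ℝ) - ⌊y ^ 2⌋₊) * Real.log y ^ k ≤
          x * (4 * (y * (z - y))) * (2 ^ k * Real.log N ^ k) := by gcongr
      _ = _ := by ring
  refine ⟨?_, ?_, fun χ => ?_⟩
  · refine le_trans ?_ h3.1
    rw [div_le_div_iff₀ (by positivity) (by positivity)]
    have : Real.log N ^ k ≤ Real.log y ^ k := pow_le_pow_left₀ hlN.le hl1 k
    have hBA : 0 ≤ (⌊z ^ 2⌋₊ : ℝ) - ⌊y ^ 2⌋₊ := by linarith
    exact mul_le_mul (mul_le_mul_of_nonneg_left hlow hκ.le) this (by positivity)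
      (mul_nonneg hκ.le hBA)
  · exact h3.2.1.trans (conv K hK.le)
  · obtain ⟨P, h6, h7, h8⟩ := h3.2.2 χ
    refine ⟨P, fun v hv => ?_, h7, ?_⟩
    · obtain ⟨h9, h10, h11⟩ := h6 v hv
      exact ⟨h9, h10.trans (pow_le_pow_left₀ hlN.le hl1 c), h11⟩
    · refine h8.trans ((conv _ (by positivity)).trans (le_of_eq ?_))
      field_simp

end Pool.Agent.Results.MP_3998cf_nt.PatternsAtEveryScale
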