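import Pool.Agent.X119.Second
import Pool.Agent.X119.Sq

/-!
# Second differences of the square roots of the primes

Let `p_0 = 2 < p_1 < ...` be the primes. For almost all primes `p_n` of every short interval `(X, X + Y]`,
`X ^ θ ≤ Y ≤ X`, the differences `√p_(n+k) - √p_n` and `√p_n - √p_(n-k)` are asymptotically equal, up to a factor
`1 + O(δ)`, for all `k = 2 ^ i` with `C k log X ≤ Y`, with at most `B` exceptions `i`; `B` and `C` depend only on `θ`,
`δ` and the proportion `ε` of the primes which are left out.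
-/

set_option autoImplicit false

namespace Pool.Agent.Results.MP_3998cf_nt.SecondDifferences

open Finset Filter

/-- The primes in increasing order, `prime 0 = 2`. -/
noncomputable def prime (n : ℕ) : ℕ := Nat.nth Nat.Prime n

/-- `√p_(n+k) - √p_n` and `√p_n - √p_(n-k)` are equal up to `δ` times their sum. -/
def Balanced (δ : ℝ) (n k : ℕ) : Prop :=
  k ≤ n ∧ |(√(prime (n + k) : ℝ) - √(prime n : ℝ)) - (√(prime n : ℝ) - √(prime (n - k) : ℝ))| ≤
    δ * (√(prime (n + k) : ℝ) - √(prime (n - k) : ℝ))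

open Classical in
/-- the number of the `i` with `C 2 ^ i log X ≤ Y` for which the two differences for `k = 2 ^ i` are not balanced -/
noncomputable def exceptions (C δ : ℝ) (X Y n : ℕ) : ℕ :=
  ((range (Nat.log 2 Y + 1)).filter (fun i => C * 2 ^ i * Real.log X ≤ Y ∧ ¬ Balanced δ n (2 ^ i))).card

lemma core {x y z δ : ℝ} (hxy : x ≤ y) (hyz : y ≤ z) (hy : 0 < y)
    (h1 : |(z * z - y * y) - (y * y - x * x)| ≤ δ / 2 * (z * z - y * y))
    (h2 : y - x ≤ δ / 2 * (z + y)) (hδ : 0 < δ) : |(z - y) - (y - x)| ≤ δ * (z - x) := by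
  have h0 : 0 < z + y := by linarith
  have e : ((z - y) - (y - x)) * (z + y) =
      ((z * z - y * y) - (y * y - x * x)) - (y - x) * (z - x) := by ring
  have h3 : |(z - y) - (y - x)| * (z + y) ≤ (δ * (z - x)) * (z + y) := by
    rw [← abs_of_pos h0, ← abs_mul, abs_of_pos h0, e]
    have h4 : 0 ≤ (y - x) * (z - x) := mul_nonneg (by linarith) (by linarith)
    calc |((z * z - y * y) - (y * y - x * x)) - (y - x) * (z - x)|
        ≤ |(z * z - y * y) - (y * y - x * x)| + |(y - x) * (z - x)| := abs_sub _ _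
      _ ≤ δ / 2 * (z * z - y * y) + δ / 2 * (z + y) * (z - x) := by
          rw [abs_of_nonneg h4]
          apply add_le_add h1
          exact mul_le_mul_of_nonneg_right h2 (by linarith)
      _ = δ / 2 * (z - y) * (z + y) + δ / 2 * (z - x) * (z + y) := by ring
      _ ≤ δ / 2 * (z - x) * (z + y) + δ / 2 * (z - x) * (z + y) := by
          have : δ / 2 * (z - y) * (z + y) ≤ δ / 2 * (z - x) * (z + y) := by gcongr
          linarith
      _ = (δ * (z - x)) * (z + y) := by ring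
  exact le_of_mul_le_mul_right h3 h0

/-- **Second differences of the square roots of the primes.** -/
theorem result (θ : ℝ) (hθ : 0 < θ) (hθ1 : θ ≤ 1) (ε : ℝ) (hε : 0 < ε) (δ : ℝ) (hδ : 0 < δ) :
    ∃ (C : ℝ) (B : ℕ), 1 ≤ C ∧ ∀ᶠ X : ℕ in atTop, ∀ Y : ℕ, (X : ℝ) ^ θ ≤ Y → Y ≤ X →
      ({n : ℕ | X < prime n ∧ prime n ≤ X + Y ∧ B < exceptions C δ X Y n}.ncard : ℝ) ≤
        ε * Y / Real.log X := by
  classical
  obtain ⟨C₁, hC₁, h⟩ := Pool.Agent.X119.Second.second θ hθ hθ1 ε hε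
  have hC10 : 0 < C₁ := by linarith
  obtain ⟨B, hB⟩ := h (δ / (2 * C₁)) (by positivity)
  have hCδ : 0 < C₁ / δ := by positivity
  refine ⟨C₁ + C₁ / δ, B, by linarith, ?_⟩
  have hlogX : Tendsto (fun X : ℕ => Real.log (X : ℝ)) atTop atTop :=
    Real.tendsto_log_atTop.comp tendsto_natCast_atTop_atTop
  filter_upwards [hB, hlogX.eventually_ge_atTop 1, eventually_ge_atTop 1] with X hX hlog hX1 Y hXY hYX
  refine le_trans (Nat.cast_le.2 ?_) (hX Y hXY hYX)
  have hL0 : 0 < Real.log X := by linarith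
  have hX0 : (0 : ℝ) < X := by exact_mod_cast hX1
  have hYXr : (Y : ℝ) ≤ X := by exact_mod_cast hYX
  have hpe : ∀ m, Pool.Agent.X119.Steps.pr m = prime m := fun _ => rfl
  apply Set.ncard_le_ncard
  · rintro n ⟨n1, n2, n3⟩
    refine ⟨n1, n2, ?_⟩
    rintro ⟨hD, hU⟩
    refine absurd n3 (not_lt.2 (le_trans ?_ hU))
    unfold exceptions Pool.Agent.X119.Second.unbalanced
    apply card_le_card
    intro i hi
    rw [mem_filter] at hi ⊢
    obtain ⟨hi0, hi1, hi2⟩ := hi
    have hk1 : (1 : ℝ) ≤ 2 ^ i := one_le_pow₀ (by norm_num)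
    have hkL : 0 < (2 : ℝ) ^ i * Real.log X := by positivity
    have hi1a : C₁ * (2 ^ i * Real.log X) ≤ Y := by
      refine le_trans ?_ hi1
      have : 0 < C₁ / δ * (2 ^ i * Real.log X) := by positivity
      nlinarith
    have hi1b : C₁ / δ * (2 ^ i * Real.log X) ≤ Y := by
      refine le_trans ?_ hi1
      have : 0 < C₁ * (2 ^ i * Real.log X) := by positivity
      nlinarith
    refine ⟨hi0, by rw [mul_assoc]; exact hi1a, fun hbal => hi2 ?_⟩
    obtain ⟨⟨a1, a2⟩, a3, a4, a5⟩ := hD (2 ^ i) Nat.one_le_two_pow (by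
      push_cast
      rw [mul_assoc]
      exact hi1a)
    push_cast at a1 a2 a4 a5
    rw [hpe, hpe] at a1 a2 a4 a5 hbal
    rw [hpe] at hbal
    have hn : (X : ℝ) < prime n := by exact_mod_cast n1
    refine ⟨a3, ?_⟩
    have hq0 : (0 : ℝ) ≤ prime (n - 2 ^ i) := Nat.cast_nonneg _
    have hp0 : (0 : ℝ) < prime n := by linarith
    have hgm : 0 < 2 ^ i * Real.log X / C₁ := by positivity
    have hr0 : (0 : ℝ) ≤ prime (n + 2 ^ i) := Nat.cast_nonneg _
    have hqp : (prime (n - 2 ^ i) : ℝ) ≤ prime n := by linarith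
    have hpr : (prime n : ℝ) ≤ prime (n + 2 ^ i) := by linarith
    have hy0 : 0 < √(prime n : ℝ) := Real.sqrt_pos.2 hp0
    have hxy : √(prime (n - 2 ^ i) : ℝ) ≤ √(prime n : ℝ) := Real.sqrt_le_sqrt hqp
    have hyz : √(prime n : ℝ) ≤ √(prime (n + 2 ^ i) : ℝ) := Real.sqrt_le_sqrt hpr
    apply core hxy hyz hy0 _ _ hδ
    · rw [Real.mul_self_sqrt hr0, Real.mul_self_sqrt hp0.le, Real.mul_self_sqrt hq0]
      have e1 : (prime (n + 2 ^ i) : ℝ) - prime n - (prime n - prime (n - 2 ^ i)) =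
          (prime (n + 2 ^ i) : ℝ) - 2 * prime n + prime (n - 2 ^ i) := by ring
      rw [e1]
      refine hbal.trans ?_
      rw [div_le_iff₀ hC10] at a1
      calc δ / (2 * C₁) * 2 ^ i * Real.log X = δ / (2 * C₁) * (2 ^ i * Real.log X) := by ring
        _ ≤ δ / (2 * C₁) * (((prime (n + 2 ^ i) : ℝ) - prime n) * C₁) := by gcongr
        _ = δ / 2 * ((prime (n + 2 ^ i) : ℝ) - prime n) := by field_simp
    · obtain ⟨-, b2⟩ := Pool.Agent.X119.Sq.sqrt_sub_bounds' (a := (prime (n - 2 ^ i) : ℝ)) (b := (prime n : ℝ))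
        hq0 hp0 hqp rfl
      refine b2.trans ?_
      rw [div_le_iff₀ hy0]
      have e2 : C₁ * 2 ^ i * Real.log X ≤ δ * Y := by
        calc C₁ * 2 ^ i * Real.log X = δ * (C₁ / δ * (2 ^ i * Real.log X)) := by field_simp
          _ ≤ δ * Y := by gcongr
      calc (prime n : ℝ) - prime (n - 2 ^ i) ≤ δ * Y := a5.trans e2
        _ ≤ δ * prime n := by
            apply mul_le_mul_of_nonneg_left _ hδ.le
            linarith
        _ = δ / 2 * (√(prime n : ℝ) + √(prime n : ℝ)) * √(prime n : ℝ) := by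
            have := Real.mul_self_sqrt hp0.le
            nlinarith
        _ ≤ δ / 2 * (√(prime (n + 2 ^ i) : ℝ) + √(prime n : ℝ)) * √(prime n : ℝ) := by gcongr
  · apply (Set.finite_Iic (X + Y)).subset
    rintro n ⟨n1, n2, -⟩
    have : n ≤ Pool.Agent.X119.Steps.pr n := by
      have h1 := Pool.Agent.X119.Steps.count_pr n
      have h2 := Nat.count_le (p := Nat.Prime) (n := Pool.Agent.X119.Steps.pr n)
      omega
    exact this.trans n2

end Pool.Agent.Results.MP_3998cf_nt.SecondDifferences
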